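import Pool.Agent.R902.ZM

namespace Pool.Agent.Results.MP_558e64_nt.Bala

open Finset Pool.Agent.R902

/-- The sequence `a(0) = 1` and
`a(n) = ∑_{j=0}^{n-1} C(n,j) C(n-1,j) C(n+j-1,j)^2` for `n ≥ 1`. -/
def a (n : ℕ) : ℕ :=
  if n = 0 then 1
  else ∑ j ∈ range n, n.choose j * (n - 1).choose j * ((n + j - 1).choose j) ^ 2

/-- `(k+1)^4` times the term of index `k+1`. -/
theorem term_eq (n k : ℕ) :
    (k + 1) ^ 4 * ((n + 1).choose (k + 1) * n.choose (k + 1) * ((n + 1 + k).choose (k + 1)) ^ 2)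
      = (n + 1) ^ 3 * (n - k) * (n.choose k * (n + 1 + k).choose k) ^ 2 := by
  have h1 := Nat.add_one_mul_choose_eq n k
  have h2 := Nat.choose_succ_right_eq n k
  have h3 := Nat.choose_succ_right_eq (n + 1 + k) k
  rw [show n + 1 + k - k = n + 1 by omega] at h3
  calc (k + 1) ^ 4 * ((n + 1).choose (k + 1) * n.choose (k + 1) * ((n + 1 + k).choose (k + 1)) ^ 2)
      = ((n + 1).choose (k + 1) * (k + 1)) * (n.choose (k + 1) * (k + 1)) *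
        ((n + 1 + k).choose (k + 1) * (k + 1)) ^ 2 := by ring
    _ = ((n + 1) * n.choose k) * (n.choose k * (n - k)) *
        ((n + 1 + k).choose k * (n + 1)) ^ 2 := by rw [h1, h2, h3]
    _ = _ := by ring

theorem P_succ (n k : ℕ) :
    (k + 1) ^ 2 * (n.choose (k + 1) * (n + 1 + (k + 1)).choose (k + 1))
      = (n - k) * (n + 2 + k) * (n.choose k * (n + 1 + k).choose k) := by
  have h2 := Nat.choose_succ_right_eq n k
  have h1 := Nat.add_one_mul_choose_eq (n + 1 + k) k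
  calc (k + 1) ^ 2 * (n.choose (k + 1) * (n + 1 + (k + 1)).choose (k + 1))
      = (n.choose (k + 1) * (k + 1)) * ((n + 1 + k + 1).choose (k + 1) * (k + 1)) := by
        rw [show n + 1 + (k + 1) = n + 1 + k + 1 by ring]; ring
    _ = (n.choose k * (n - k)) * ((n + 1 + k + 1) * (n + 1 + k).choose k) := by rw [h2, ← h1]
    _ = _ := by ring

/-- Modulo `p^5`, `p^3 P_k^2 = p^3` for `k ≤ p - 1`. -/
theorem P_sq (n : ℕ) [hp : Fact (n + 1).Prime] (k : ℕ) (hk : k ≤ n) :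
    (((n + 1 : ℕ) : ZMod ((n + 1) ^ 5))) ^ 3 *
      ((n.choose k * (n + 1 + k).choose k : ℕ) : ZMod ((n + 1) ^ 5)) ^ 2
      = (((n + 1 : ℕ) : ZMod ((n + 1) ^ 5))) ^ 3 := by
  have h5 : (((n + 1 : ℕ) : ZMod ((n + 1) ^ 5))) ^ 5 = 0 := by
    rw [← Nat.cast_pow]; exact ZMod.natCast_self _
  induction k with
  | zero => simp
  | succ k ih =>
    have ih' := ih (by omega)
    have hu : IsUnit (((k + 1 : ℕ) : ZMod ((n + 1) ^ 5)) ^ 4) :=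
      (isUnit_natCast (n + 1) 5 (k + 1) (by omega) (by omega)).pow 4
    apply hu.mul_left_cancel
    have h1 : ((k + 1 : ℕ) : ZMod ((n + 1) ^ 5)) ^ 2 *
        ((n.choose (k + 1) * (n + 1 + (k + 1)).choose (k + 1) : ℕ) : ZMod ((n + 1) ^ 5))
        = (((n + 1 : ℕ) : ZMod ((n + 1) ^ 5)) ^ 2 - ((k + 1 : ℕ) : ZMod ((n + 1) ^ 5)) ^ 2) *
          ((n.choose k * (n + 1 + k).choose k : ℕ) : ZMod ((n + 1) ^ 5)) := by
      rw [← Nat.cast_pow, ← Nat.cast_mul, P_succ, Nat.cast_mul, Nat.cast_mul,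
        Nat.cast_sub (by omega : k ≤ n)]
      push_cast
      ring
    calc ((k + 1 : ℕ) : ZMod ((n + 1) ^ 5)) ^ 4 * ((((n + 1 : ℕ) : ZMod ((n + 1) ^ 5))) ^ 3 *
          ((n.choose (k + 1) * (n + 1 + (k + 1)).choose (k + 1) : ℕ) : ZMod ((n + 1) ^ 5)) ^ 2)
        = (((n + 1 : ℕ) : ZMod ((n + 1) ^ 5))) ^ 3 * (((k + 1 : ℕ) : ZMod ((n + 1) ^ 5)) ^ 2 *
          ((n.choose (k + 1) * (n + 1 + (k + 1)).choose (k + 1) : ℕ) :
            ZMod ((n + 1) ^ 5))) ^ 2 := by ring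
      _ = (((n + 1 : ℕ) : ZMod ((n + 1) ^ 5)) ^ 2 - ((k + 1 : ℕ) : ZMod ((n + 1) ^ 5)) ^ 2) ^ 2 *
          ((((n + 1 : ℕ) : ZMod ((n + 1) ^ 5))) ^ 3 *
          ((n.choose k * (n + 1 + k).choose k : ℕ) : ZMod ((n + 1) ^ 5)) ^ 2) := by
            rw [h1]; ring
      _ = (((n + 1 : ℕ) : ZMod ((n + 1) ^ 5)) ^ 2 - ((k + 1 : ℕ) : ZMod ((n + 1) ^ 5)) ^ 2) ^ 2 *
          (((n + 1 : ℕ) : ZMod ((n + 1) ^ 5))) ^ 3 := by rw [ih']
      _ = _ := by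
        linear_combination ((((n + 1 : ℕ) : ZMod ((n + 1) ^ 5))) ^ 2 -
          2 * ((k + 1 : ℕ) : ZMod ((n + 1) ^ 5)) ^ 2) * h5

/-- The term of index `j = k + 1` modulo `p^5`. -/
theorem term_mod (n : ℕ) [hp : Fact (n + 1).Prime] (k : ℕ) (hk : k < n) :
    (((n + 1).choose (k + 1) * n.choose (k + 1) * ((n + 1 + k).choose (k + 1)) ^ 2 : ℕ) :
        ZMod ((n + 1) ^ 5))
      = ((n + 1 : ℕ) : ZMod ((n + 1) ^ 5)) ^ 4 * ((k + 1 : ℕ) : ZMod ((n + 1) ^ 5))⁻¹ ^ 4 -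
        ((n + 1 : ℕ) : ZMod ((n + 1) ^ 5)) ^ 3 * ((k + 1 : ℕ) : ZMod ((n + 1) ^ 5))⁻¹ ^ 3 := by
  have hu := isUnit_natCast (n + 1) 5 (k + 1) (by omega) (by omega)
  have hinv : ((k + 1 : ℕ) : ZMod ((n + 1) ^ 5)) * ((k + 1 : ℕ) : ZMod ((n + 1) ^ 5))⁻¹ = 1 :=
    ZMod.mul_inv_of_unit _ hu
  apply (hu.pow 4).mul_left_cancel
  have h1 := congrArg (fun m : ℕ => (m : ZMod ((n + 1) ^ 5))) (term_eq n k)
  have h2 : (((n + 1) ^ 3 * (n - k) * (n.choose k * (n + 1 + k).choose k) ^ 2 : ℕ) :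
      ZMod ((n + 1) ^ 5)) = (((n + 1 : ℕ) : ZMod ((n + 1) ^ 5)) - ((k + 1 : ℕ) :
        ZMod ((n + 1) ^ 5))) * ((((n + 1 : ℕ) : ZMod ((n + 1) ^ 5))) ^ 3 *
      ((n.choose k * (n + 1 + k).choose k : ℕ) : ZMod ((n + 1) ^ 5)) ^ 2) := by
    rw [Nat.cast_mul, Nat.cast_mul, Nat.cast_sub (by omega : k ≤ n)]
    push_cast
    ring
  rw [h2, P_sq n k (by omega)] at h1
  rw [← Nat.cast_pow, ← Nat.cast_mul, h1]
  generalize ((k + 1 : ℕ) : ZMod ((n + 1) ^ 5))⁻¹ = u at hinv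
  rw [Nat.cast_pow]
  generalize ((k + 1 : ℕ) : ZMod ((n + 1) ^ 5)) = x at hinv
  generalize ((n + 1 : ℕ) : ZMod ((n + 1) ^ 5)) = q
  have e4 : x ^ 4 * u ^ 4 = 1 := by rw [← mul_pow, hinv, one_pow]
  have e3 : x ^ 3 * u ^ 3 = 1 := by rw [← mul_pow, hinv, one_pow]
  linear_combination (-q ^ 4) * e4 + q ^ 3 * x * e3

/-- Twice `p^3 ∑ j^{-3}` is `-3 p^4 ∑ j^{-4}` modulo `p^5`. -/
theorem sum_three (n : ℕ) [hp : Fact (n + 1).Prime] :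
    2 * ∑ k ∈ range n, ((n + 1 : ℕ) : ZMod ((n + 1) ^ 5)) ^ 3 *
        ((k + 1 : ℕ) : ZMod ((n + 1) ^ 5))⁻¹ ^ 3
      = - 3 * ∑ k ∈ range n, ((n + 1 : ℕ) : ZMod ((n + 1) ^ 5)) ^ 4 *
        ((k + 1 : ℕ) : ZMod ((n + 1) ^ 5))⁻¹ ^ 4 := by
  have h5 : (((n + 1 : ℕ) : ZMod ((n + 1) ^ 5))) ^ 5 = 0 := by
    rw [← Nat.cast_pow]; exact ZMod.natCast_self _
  have hr := Finset.sum_range_reflect (fun k => ((n + 1 : ℕ) : ZMod ((n + 1) ^ 5)) ^ 3 *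
        ((k + 1 : ℕ) : ZMod ((n + 1) ^ 5))⁻¹ ^ 3) n
  rw [two_mul]
  nth_rewrite 1 [← hr]
  rw [← Finset.sum_add_distrib, Finset.mul_sum]
  refine Finset.sum_congr rfl fun k hk => ?_
  have hk := Finset.mem_range.1 hk
  have hu := isUnit_natCast (n + 1) 5 (k + 1) (by omega) (by omega)
  have hinv : ((k + 1 : ℕ) : ZMod ((n + 1) ^ 5)) * ((k + 1 : ℕ) : ZMod ((n + 1) ^ 5))⁻¹ = 1 :=
    ZMod.mul_inv_of_unit _ hu
  have hv := isUnit_natCast (n + 1) 5 (n - 1 - k + 1) (by omega) (by omega)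
  have hinv' : ((n - 1 - k + 1 : ℕ) : ZMod ((n + 1) ^ 5)) *
      ((n - 1 - k + 1 : ℕ) : ZMod ((n + 1) ^ 5))⁻¹ = 1 :=
    ZMod.mul_inv_of_unit _ hv
  have hs : ((n - 1 - k + 1 : ℕ) : ZMod ((n + 1) ^ 5)) + ((k + 1 : ℕ) : ZMod ((n + 1) ^ 5))
      = ((n + 1 : ℕ) : ZMod ((n + 1) ^ 5)) := by
    rw [← Nat.cast_add]; congr 1; omega
  generalize ((k + 1 : ℕ) : ZMod ((n + 1) ^ 5))⁻¹ = u at *
  generalize ((n - 1 - k + 1 : ℕ) : ZMod ((n + 1) ^ 5))⁻¹ = v at *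
  generalize ((k + 1 : ℕ) : ZMod ((n + 1) ^ 5)) = x at *
  generalize ((n - 1 - k + 1 : ℕ) : ZMod ((n + 1) ^ 5)) = y at *
  generalize ((n + 1 : ℕ) : ZMod ((n + 1) ^ 5)) = q at *
  have hyu : y * u = q * u - 1 := by linear_combination u * hs - hinv
  have hE : q ^ 3 * v ^ 3 + q ^ 3 * u ^ 3 + 3 * (q ^ 4 * u ^ 4) = 0 := by
    calc q ^ 3 * v ^ 3 + q ^ 3 * u ^ 3 + 3 * (q ^ 4 * u ^ 4)
        = (y * v) ^ 3 * (q ^ 3 * v ^ 3 + q ^ 3 * u ^ 3 + 3 * (q ^ 4 * u ^ 4)) := by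
          rw [hinv']; ring
      _ = v ^ 3 * q ^ 3 * ((y * u) ^ 3 + (y * v) ^ 3 + 3 * q * u * (y * u) ^ 3) := by ring
      _ = q ^ 5 * (v ^ 3 * (6 * u ^ 2 + q * u ^ 3 - 9 * q * u ^ 3 + 3 * q ^ 2 * u ^ 4)) := by
          rw [hyu, hinv']; ring
      _ = 0 := by rw [h5, zero_mul]
  linear_combination hE

/-- `5 p^4 ∑ j^{-4} = 0` modulo `p^5`. -/
theorem sum_four (n : ℕ) [hp : Fact (n + 1).Prime] (h4 : 4 ≤ n) :
    5 * ∑ k ∈ range n, ((n + 1 : ℕ) : ZMod ((n + 1) ^ 5)) ^ 4 *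
        ((k + 1 : ℕ) : ZMod ((n + 1) ^ 5))⁻¹ ^ 4 = 0 := by
  rw [← Finset.mul_sum]
  have h5 : (((n + 1 : ℕ) : ZMod ((n + 1) ^ 5))) ^ 5 = 0 := by
    rw [← Nat.cast_pow]; exact ZMod.natCast_self _
  rcases Nat.eq_or_lt_of_le h4 with h | h
  · subst h
    have : ((4 + 1 : ℕ) : ZMod ((4 + 1) ^ 5)) = 5 := by norm_num
    rw [this] at h5 ⊢
    rw [← mul_assoc, ← pow_succ', h5, zero_mul]
  · rw [pow_mul_eq_zero_one (n + 1) 4, mul_zero]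
    rw [map_sum]
    have h6 : n ≠ 5 := by
      rintro rfl
      exact absurd hp.1 (by norm_num)
    have h7 := sum_range_inv_pow (n + 1) 4 (by norm_num) (by omega)
    rw [Finset.sum_range_succ'] at h7
    simp only [Nat.cast_zero, inv_zero, ne_eq, OfNat.ofNat_ne_zero, not_false_eq_true, zero_pow,
      add_zero] at h7
    rw [← h7]
    refine Finset.sum_congr rfl fun k hk => ?_
    have hk := Finset.mem_range.1 hk
    rw [map_pow, castHom_inv (n + 1) 5 (k + 1) (by omega) (by omega)]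

/-- Bala's supercongruence: `a(p) ≡ 1 (mod p^5)` for all primes `p ≥ 5`. -/
theorem result (p : ℕ) (hp : p.Prime) (h5 : 5 ≤ p) : (p : ℤ) ^ 5 ∣ (a p : ℤ) - 1 := by
  obtain ⟨n, rfl⟩ : ∃ n, p = n + 1 := ⟨p - 1, by omega⟩
  have : Fact (n + 1).Prime := ⟨hp⟩
  have key : ((a (n + 1) : ℕ) : ZMod ((n + 1) ^ 5)) = 1 := by
    rw [a, if_neg (by omega), Finset.sum_range_succ']
    have h0 : (n + 1).choose 0 * (n + 1 - 1).choose 0 * ((n + 1 + 0 - 1).choose 0) ^ 2 = 1 := by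
      simp
    rw [h0, Nat.cast_add, Nat.cast_one, Nat.cast_sum]
    have h1 : ∑ k ∈ range n, (((n + 1).choose (k + 1) * (n + 1 - 1).choose (k + 1) *
        ((n + 1 + (k + 1) - 1).choose (k + 1)) ^ 2 : ℕ) : ZMod ((n + 1) ^ 5))
        = ∑ k ∈ range n, ((n + 1 : ℕ) : ZMod ((n + 1) ^ 5)) ^ 4 *
            ((k + 1 : ℕ) : ZMod ((n + 1) ^ 5))⁻¹ ^ 4 -
          ∑ k ∈ range n, ((n + 1 : ℕ) : ZMod ((n + 1) ^ 5)) ^ 3 *
            ((k + 1 : ℕ) : ZMod ((n + 1) ^ 5))⁻¹ ^ 3 := by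
      rw [← Finset.sum_sub_distrib]
      refine Finset.sum_congr rfl fun k hk => ?_
      have hk := Finset.mem_range.1 hk
      rw [← term_mod n k hk]
      congr 3
    rw [h1]
    have h3 := sum_three n
    have h4 := sum_four n (by omega)
    have hu : IsUnit ((2 : ℕ) : ZMod ((n + 1) ^ 5)) :=
      isUnit_natCast (n + 1) 5 2 (by norm_num) (by omega)
    apply hu.mul_left_cancel
    push_cast at h3 h4 ⊢
    linear_combination h4 - h3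
  have h := (ZMod.intCast_zmod_eq_zero_iff_dvd ((a (n + 1) : ℤ) - 1) ((n + 1) ^ 5)).1 (by
    push_cast
    rw [key, sub_self])
  exact_mod_cast h

end Pool.Agent.Results.MP_558e64_nt.Bala
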